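import Pool.Agent.Work.MP_8b4a1b_an.Main

/-!
Norm inflation for the 2D Euler equations in `H^s`, for every `0 < s < 1`.

The data is a smooth compactly supported divergence-free velocity field; the conclusion holds for
every global smooth solution `(u, p)` with this data (such a solution exists and is unique by the
classical theory).
-/

open MeasureTheory Set
open scoped ENNReal NNReal ContDiff FourierTransform Real

namespace Pool.Agent.Results.MP_8b4a1b_an.NormInflation

section general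

variable {V W : Type} [NormedAddCommGroup V] [InnerProductSpace ℝ V] [FiniteDimensional ℝ V]
  [MeasurableSpace V] [BorelSpace V] [NormedAddCommGroup W] [NormedSpace ℝ W]

/-- The square of the `H^s` norm of `f : V → ℂ`: the integral of
`(1 + (2 π |ξ|)^2)^s |f^(ξ)|^2`, where `f^` is the Fourier transform on `L^2` (with the kernel
`exp (-2 π i x ξ)`); it is `⊤` when `f` is not in `L^2`. -/
noncomputable def sobolevSq (s : ℝ) (f : V → ℂ) : ℝ≥0∞ :=
  open Classical in
  if h : MemLp f 2 (volume : Measure V) then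
    ∫⁻ ξ : V, ENNReal.ofReal ((1 + (2 * π * ‖ξ‖) ^ 2) ^ s) *
      ‖(𝓕 (h.toLp f) : Lp ℂ 2 (volume : Measure V)) ξ‖ₑ ^ 2
  else ⊤

/-- The `L^2` norm of the `k`-th derivative in space, at each time. -/
noncomputable def derivNorm (k : ℕ) (u : ℝ → V → W) (t : ℝ) : ℝ≥0∞ :=
  eLpNorm (iteratedFDeriv ℝ k (u t)) 2 (volume : Measure V)

/-- Smoothness in time and space, up to time `0`. -/
def SmoothUpToZero (u : ℝ → V → W) : Prop :=
  ContDiffOn ℝ ∞ (fun z : ℝ × V => u z.1 z.2) (Ici 0 ×ˢ univ)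

/-- The derivative in time (one-sided at time `0`). -/
noncomputable def timeDeriv (u : ℝ → V → W) (t : ℝ) (x : V) : W :=
  derivWithin (fun s => u s x) (Ici 0) t

end general

/-- Boundedness on bounded time intervals. -/
def LocBounded (N : ℝ → ℝ≥0∞) : Prop := ∀ T : ℝ, ∃ C : ℝ≥0, ∀ t ∈ Icc 0 T, N t ≤ C

/-- Partial derivative of a scalar function on the plane. -/
noncomputable def pderiv (i : Fin 2) (f : EuclideanSpace ℝ (Fin 2) → ℝ)
    (x : EuclideanSpace ℝ (Fin 2)) : ℝ :=
  fderiv ℝ f x (EuclideanSpace.single i 1)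

/-- Divergence of a vector field on the plane. -/
noncomputable def divergence (v : EuclideanSpace ℝ (Fin 2) → EuclideanSpace ℝ (Fin 2))
    (x : EuclideanSpace ℝ (Fin 2)) : ℝ :=
  pderiv 0 (fun y => v y 0) x + pderiv 1 (fun y => v y 1) x

/-- The transport term `(v . grad) f`. -/
noncomputable def transport (v : EuclideanSpace ℝ (Fin 2) → EuclideanSpace ℝ (Fin 2))
    (f : EuclideanSpace ℝ (Fin 2) → ℝ) (x : EuclideanSpace ℝ (Fin 2)) : ℝ :=
  v x 0 * pderiv 0 f x + v x 1 * pderiv 1 f x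

/-- The `H^s` norm of a vector field on the plane. -/
noncomputable def hsNorm (s : ℝ)
    (v : EuclideanSpace ℝ (Fin 2) → EuclideanSpace ℝ (Fin 2)) : ℝ≥0∞ :=
  (sobolevSq s (fun x => ((v x 0 : ℝ) : ℂ)) + sobolevSq s (fun x => ((v x 1 : ℝ) : ℂ))) ^
    (1 / 2 : ℝ)

/-- `(u, p)` is a global smooth solution of the incompressible Euler equations on the plane, with
`u` and its time derivative in every `H^k`, locally uniformly in time. -/
structure EulerSolution (u : ℝ → EuclideanSpace ℝ (Fin 2) → EuclideanSpace ℝ (Fin 2))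
    (p : ℝ → EuclideanSpace ℝ (Fin 2) → ℝ) : Prop where
  smooth_u : SmoothUpToZero u
  smooth_p : SmoothUpToZero p
  sobolev : ∀ k : ℕ, LocBounded (derivNorm k u)
  sobolev_t : ∀ k : ℕ, LocBounded (derivNorm k (timeDeriv u))
  div_free : ∀ t, 0 ≤ t → ∀ x, divergence (u t) x = 0
  momentum : ∀ t, 0 ≤ t → ∀ x, ∀ i : Fin 2,
    timeDeriv (fun s y => u s y i) t x + transport (u t) (fun y => u t y i) x +
      pderiv i (p t) x = 0

theorem EulerSolution.conv {u : ℝ → EuclideanSpace ℝ (Fin 2) → EuclideanSpace ℝ (Fin 2)}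
    {p : ℝ → EuclideanSpace ℝ (Fin 2) → ℝ} (h : EulerSolution u p) :
    Pool.Agent.EulerInflation.IsEulerSolution u p :=
  ⟨h.smooth_u, h.smooth_p, fun k T => h.sobolev k T, fun k T => h.sobolev_t k T, h.div_free,
    h.momentum⟩

theorem result : ∀ s : ℝ, 0 < s → s < 1 → ∀ ε : ℝ, 0 < ε →
    ∃ u₀ : EuclideanSpace ℝ (Fin 2) → EuclideanSpace ℝ (Fin 2),
      ContDiff ℝ ∞ u₀ ∧ HasCompactSupport u₀ ∧ (∀ x, divergence u₀ x = 0) ∧
      hsNorm s u₀ < ENNReal.ofReal ε ∧
      ∃ t : ℝ, 0 < t ∧ t < ε ∧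
        ∀ (u : ℝ → EuclideanSpace ℝ (Fin 2) → EuclideanSpace ℝ (Fin 2))
          (p : ℝ → EuclideanSpace ℝ (Fin 2) → ℝ), EulerSolution u p → u 0 = u₀ →
          ENNReal.ofReal (1 / ε) < hsNorm s (u t) := by
  intro s hs hs1 ε hε
  obtain ⟨u₀, h1, h2, h3, h4, t, h5, h6, h7⟩ :=
    Pool.Agent.EulerInflation.norm_inflation hs hs1 hε
  exact ⟨u₀, h1, h2, h3, h4, t, h5, h6, fun u p h h0 => h7 u p h.conv h0⟩

end Pool.Agent.Results.MP_8b4a1b_an.NormInflation
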